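import Pool.Agent.Helper14_DK.Stmts

/-!
# Module KL: the key lemma of Hoermander's method
-/

set_option autoImplicit false

namespace Pool.Agent.DK.H69

open MeasureTheory Complex Set Metric Filter
open scoped ContDiff Topology

variable {n : ℕ} {D : Set (E n)}

/-- weighted square integrable functions are square integrable on compact sets -/
lemma loc2 {g : E n → ℂ} {w : E n → ℝ} (hg : AEStronglyMeasurable g (volume.restrict D))
    (hw : ContinuousOn w D) (hi : IntegrableOn (fun z => ‖g z‖ ^ 2 * Real.exp (-w z)) D)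
    {K : Set (E n)} (hK : IsCompact K) (hKD : K ⊆ D) : MemLp g 2 (volume.restrict K) := by
  have hgK : AEStronglyMeasurable g (volume.restrict K) :=
    hg.mono_measure (Measure.restrict_mono hKD le_rfl)
  rw [memLp_two_iff_integrable_sq_norm hgK]
  obtain ⟨C, hC⟩ := hK.exists_bound_of_continuousOn
    ((Real.continuous_exp.comp_continuousOn (hw.mono hKD)))
  have hiK : Integrable (fun z => C * (‖g z‖ ^ 2 * Real.exp (-w z))) (volume.restrict K) :=
    (hi.mono_set hKD).const_mul C
  refine hiK.mono' (hgK.norm.pow 2) ?_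
  filter_upwards [ae_restrict_mem hK.measurableSet] with z hz
  have h1 : Real.exp (w z) ≤ C := by
    have h0 := hC z hz
    simp only [Function.comp_apply] at h0
    rwa [Real.norm_eq_abs, abs_of_nonneg (Real.exp_pos _).le] at h0
  have h2 : Real.exp (w z) * Real.exp (-w z) = 1 := by
    rw [← Real.exp_add]; simp
  rw [Real.norm_eq_abs, abs_of_nonneg (by positivity)]
  have h3 : Real.exp (w z) * (‖g z‖ ^ 2 * Real.exp (-w z)) ≤
      C * (‖g z‖ ^ 2 * Real.exp (-w z)) :=
    mul_le_mul_of_nonneg_right h1 (by positivity)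
  calc ‖g z‖ ^ 2 = ‖g z‖ ^ 2 * (Real.exp (w z) * Real.exp (-w z)) := by rw [h2, mul_one]
    _ = Real.exp (w z) * (‖g z‖ ^ 2 * Real.exp (-w z)) := by ring
    _ ≤ _ := h3

/-- a locally square integrable function -/
def L2loc (D : Set (E n)) (g : E n → ℂ) : Prop :=
  ∀ K : Set (E n), IsCompact K → K ⊆ D → MemLp g 2 (volume.restrict K)

lemma memLp_test_mul {g a : E n → ℂ} (hg : L2loc D g) (ha : IsTest D a) :
    MemLp (fun z => a z * g z) 2 volume := by
  have hK : IsCompact (tsupport a) := ha.cpt
  have h1 := hg _ hK ha.sub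
  obtain ⟨C, hC⟩ := ha.continuous.bounded_above_of_compact_support ha.cpt
  have h2 : MemLp (fun z => a z * g z) 2 (volume.restrict (tsupport a)) := by
    refine h1.of_le_mul (c := C) (ha.continuous.aestronglyMeasurable.mul h1.1) ?_
    filter_upwards with z
    rw [norm_mul]
    exact mul_le_mul_of_nonneg_right (hC z) (norm_nonneg _)
  rw [← memLp_indicator_iff_restrict hK.measurableSet] at h2
  have h3 : (tsupport a).indicator (fun z => a z * g z) = fun z => a z * g z := by
    funext z
    by_cases hz : z ∈ tsupport a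
    · rw [indicator_of_mem hz]
    · rw [indicator_of_notMem hz, image_eq_zero_of_notMem_tsupport hz, zero_mul]
  rwa [h3] at h2

lemma integrable_test_mul {g a : E n → ℂ} (hg : L2loc D g) (ha : IsTest D a) :
    Integrable (fun z => a z * g z) volume := by
  have hK : IsCompact (tsupport a) := ha.cpt
  have : IsFiniteMeasure (volume.restrict (tsupport a)) :=
    ⟨by simpa using hK.measure_lt_top⟩
  have h1 : Integrable (fun z => a z * g z) (volume.restrict (tsupport a)) :=
    ((memLp_test_mul hg ha).restrict (tsupport a)).integrable (by norm_num)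
  refine IntegrableOn.integrable_of_forall_notMem_eq_zero h1 fun z hz => ?_
  rw [image_eq_zero_of_notMem_tsupport hz, zero_mul]

lemma integrable_mul_test2 {g a : E n → ℂ} (hg : L2loc D g) (ha : IsTest D a) :
    Integrable (fun z => g z * a z) volume :=
  (integrable_test_mul hg ha).congr (Eventually.of_forall fun z => mul_comm _ _)

/-- the exponential of a smooth function as a complex function -/
lemma smooth_cexp {F : E n → ℝ} (hF : ContDiffOn ℝ ∞ F D) :
    ContDiffOn ℝ ∞ (cx fun z => Real.exp (F z)) D :=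
  contDiffOn_cx (Real.contDiff_exp.comp_contDiffOn hF)

lemma dz_cexp {F : E n → ℝ} {z : E n} (hF : DifferentiableAt ℝ F z) (j : Fin n) :
    dz j (cx fun y => Real.exp (F y)) z = (Real.exp (F z) : ℂ) * dz j (cx F) z := by
  unfold dz
  rw [fderiv_cx (hF.exp), fderiv_cx (hF.exp), fderiv_cx hF, fderiv_cx hF, fderiv_exp hF]
  simp only [ContinuousLinearMap.smul_apply, smul_eq_mul]
  push_cast
  ring

/-- Module KL. -/
theorem kl (hloc : LocStmt) (heps : EpsStmt) : KlStmt := by
  intro n D t K Φ ψ η hW ht f h hfm hhm hfi hhi hcl heq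
  have hD := hW.op
  set w1 : E n → ℝ := fun z => Φ z - ψ z with hw1
  set w2 : E n → ℝ := fun z => Φ z - 2 * ψ z with hw2
  have sw1 : ContDiffOn ℝ ∞ w1 D := hW.smΦ.sub hW.smψ
  have sw2 : ContDiffOn ℝ ∞ w2 D := hW.smΦ.sub (contDiffOn_const.mul hW.smψ)
  have cw1 : ContinuousOn w1 D := sw1.continuousOn
  have cw2 : ContinuousOn w2 D := sw2.continuousOn
  have cΦ : ContinuousOn Φ D := hW.smΦ.continuousOn
  have cψ : ContinuousOn ψ D := hW.smψ.continuousOn
  have lf : ∀ j, L2loc D (f j) := fun j K hK hKD => loc2 (hfm j) cw1 (hfi j) hK hKD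
  have lh : L2loc D h := fun K hK hKD => loc2 hhm cw2 hhi hK hKD
  -- the weak divergence
  set d : E n → ℂ := fun z => (∑ j, f j z * dz j (cx w1) z) - h z * (Real.exp (ψ z) : ℂ) with hd
  have sdz : ∀ j, ContDiffOn ℝ ∞ (dz j (cx w1)) D := by
    intro j z hz
    exact (contDiffAt_dz (m := ⊤) (by
      simpa using contDiffAt_cx (sw1.contDiffAt (hD.mem_nhds hz)))).contDiffWithinAt
  have seψ : ContDiffOn ℝ ∞ (cx fun z => Real.exp (ψ z)) D := smooth_cexp hW.smψ
  have test1 : ∀ j v, IsTest D v → IsTest D (fun z => dz j (cx w1) z * v z) := fun j v hv =>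
    hv.mul hD (sdz j)
  have test2 : ∀ v, IsTest D v → IsTest D (fun z => (Real.exp (ψ z) : ℂ) * v z) := fun v hv =>
    hv.mul hD seψ
  have intf : ∀ j v, IsTest D v → Integrable (fun z => f j z * v z) := fun j v hv =>
    integrable_mul_test2 (lf j) hv
  have intd : ∀ v, IsTest D v → Integrable (fun z => d z * v z) := by
    intro v hv
    have e : (fun z => d z * v z) = fun z => (∑ j, f j z * (dz j (cx w1) z * v z)) -
        h z * ((Real.exp (ψ z) : ℂ) * v z) := by
      funext z
      rw [hd]
      simp only [sub_mul, Finset.sum_mul]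
      congr 1
      · exact Finset.sum_congr rfl fun j _ => by ring
      · ring
    rw [e]
    exact (integrable_finset_sum _ fun j _ => intf j _ (test1 j v hv)).sub
      (integrable_mul_test2 lh (test2 v hv))
  have weakd : ∀ v, IsTest D v → ∫ z, ∑ j, f j z * dz j v z = - ∫ z, d z * v z := by
    intro v hv
    have sv : ContDiffOn ℝ ∞ (cx fun z => Real.exp (w1 z)) D := smooth_cexp sw1
    have hV : IsTest D (fun z => (cx fun z => Real.exp (w1 z)) z * v z) := hv.mul hD sv
    have h1 := heq _ hV
    have e1 : ∀ z, (∑ j, f j z * dz j (fun z => (cx fun z => Real.exp (w1 z)) z * v z) z) *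
        ((Real.exp (-(Φ z - ψ z)) : ℝ) : ℂ) =
        (∑ j, f j z * dz j v z) + ∑ j, f j z * (dz j (cx w1) z * v z) := by
      intro z
      by_cases hz : z ∈ D
      · have hdw : DifferentiableAt ℝ w1 z :=
          (sw1.contDiffAt (hD.mem_nhds hz)).differentiableAt (by simp)
        have hdc : DifferentiableAt ℝ (cx fun z => Real.exp (w1 z)) z :=
          (sv.contDiffAt (hD.mem_nhds hz)).differentiableAt (by simp)
        have hexp : ((Real.exp (w1 z) : ℝ) : ℂ) * ((Real.exp (-(Φ z - ψ z)) : ℝ) : ℂ) = 1 := by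
          rw [← Complex.ofReal_mul, ← Real.exp_add]
          simp [hw1]
        rw [Finset.sum_mul, ← Finset.sum_add_distrib]
        refine Finset.sum_congr rfl fun j _ => ?_
        rw [dz_mul hdc (hv.differentiable z), dz_cexp hdw]
        simp only [cx]
        linear_combination (f j z * dz j v z + f j z * dz j (cx w1) z * v z) * hexp
      · have hz0 : ∀ j, dz j v z = 0 := fun j => (hv.dz j).zero_of_notMem hz
        have hz1 : ∀ j, dz j (fun z => (cx fun z => Real.exp (w1 z)) z * v z) z = 0 :=
          fun j => (hV.dz j).zero_of_notMem hz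
        simp [hz0, hz1, hv.zero_of_notMem hz]
    have e2 : ∀ z, h z * ((cx fun z => Real.exp (w1 z)) z * v z) *
        ((Real.exp (-(Φ z - 2 * ψ z)) : ℝ) : ℂ) = h z * ((Real.exp (ψ z) : ℂ) * v z) := by
      intro z
      have hexp : ((Real.exp (w1 z) : ℝ) : ℂ) * ((Real.exp (-(Φ z - 2 * ψ z)) : ℝ) : ℂ) =
          (Real.exp (ψ z) : ℂ) := by
        rw [← Complex.ofReal_mul, ← Real.exp_add]
        congr 2
        simp only [hw1]
        ring
      simp only [cx]
      linear_combination (h z * v z) * hexp
    simp only [e1, e2] at h1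
    have i1 : Integrable (fun z => ∑ j, f j z * dz j v z) :=
      integrable_finset_sum _ fun j _ => intf j _ (hv.dz j)
    have i2 : Integrable (fun z => ∑ j, f j z * (dz j (cx w1) z * v z)) :=
      integrable_finset_sum _ fun j _ => intf j _ (test1 j v hv)
    have i3 : Integrable (fun z => h z * ((Real.exp (ψ z) : ℂ) * v z)) :=
      integrable_mul_test2 lh (test2 v hv)
    rw [integral_add i1 i2] at h1
    have e3 : ∫ z, d z * v z = (∫ z, ∑ j, f j z * (dz j (cx w1) z * v z)) -
        ∫ z, h z * ((Real.exp (ψ z) : ℂ) * v z) := by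
      rw [← integral_sub i2 i3]
      refine integral_congr_ae (Eventually.of_forall fun z => ?_)
      simp only [hd, sub_mul, Finset.sum_mul]
      congr 1
      · exact Finset.sum_congr rfl fun j _ => by ring
      · ring
    rw [e3]
    linear_combination h1
  -- the estimate for the cutoff functions
  set F : E n → ℝ := fun z => (∑ j, ‖f j z‖ ^ 2) with hF
  set G : ℕ → E n → ℝ := fun m z => ∑ k, ‖dz k (cx (η m)) z‖ ^ 2 with hG
  have iF : IntegrableOn (fun z => F z * Real.exp (-(Φ z - ψ z))) D := by
    have : (fun z => F z * Real.exp (-(Φ z - ψ z))) = fun z =>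
        ∑ j, ‖f j z‖ ^ 2 * Real.exp (-(Φ z - ψ z)) := by
      funext z
      rw [hF, Finset.sum_mul]
    rw [this]
    exact integrable_finset_sum _ fun j _ => hfi j
  have hFm : AEStronglyMeasurable F (volume.restrict D) :=
    Finset.aestronglyMeasurable_fun_sum _ fun j _ => (hfm j).norm.pow 2
  have mΦ : AEStronglyMeasurable (fun z => Real.exp (-Φ z)) (volume.restrict D) :=
    (Real.continuous_exp.comp_continuousOn cΦ.neg).aestronglyMeasurable hD.measurableSet
  have mGm : ∀ m, AEStronglyMeasurable (G m) (volume.restrict D) := fun m =>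
    (continuous_finset_sum _ fun k _ => (((hW.eta m).dz k).continuous.norm.pow 2)
      ).aestronglyMeasurable
  have dom : ∀ m, ∀ z ∈ D, G m z * F z * Real.exp (-Φ z) ≤ F z * Real.exp (-(Φ z - ψ z)) := by
    intro m z hz
    have h1 := hW.grad m z hz
    have hF0 : 0 ≤ F z := Finset.sum_nonneg fun j _ => by positivity
    have e : Real.exp (-(Φ z - ψ z)) = Real.exp (ψ z) * Real.exp (-Φ z) := by
      rw [← Real.exp_add]
      congr 1
      ring
    rw [e]
    have : G m z * (F z * Real.exp (-Φ z)) ≤ Real.exp (ψ z) * (F z * Real.exp (-Φ z)) :=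
      mul_le_mul_of_nonneg_right h1 (by positivity)
    linarith
  have iG : ∀ m, IntegrableOn (fun z => G m z * F z * Real.exp (-Φ z)) D := by
    intro m
    refine Integrable.mono' iF (((mGm m).mul hFm).mul mΦ) ?_
    filter_upwards [ae_restrict_mem hD.measurableSet] with z hz
    have hG0 : 0 ≤ G m z := Finset.sum_nonneg fun j _ => by positivity
    have hF0 : 0 ≤ F z := Finset.sum_nonneg fun j _ => by positivity
    rw [Real.norm_eq_abs, abs_of_nonneg (by positivity)]
    exact dom m z hz
  have main : ∀ m, t * (∫ z in D, (η m z) ^ 2 * (F z * Real.exp (-(Φ z - ψ z)))) ≤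
      4 * (∫ z in D, ‖h z‖ ^ 2 * Real.exp (-(Φ z - 2 * ψ z))) +
        6 * ∫ z in D, G m z * F z * Real.exp (-Φ z) := by
    intro m
    have hη : IsTest D (cx (η m)) := hW.eta m
    obtain ⟨l1, l2⟩ := hloc n D f d (cx (η m)) hD intf intd hcl weakd hη
    have cη : ∀ z, z ∉ tsupport (cx (η m)) → cx (η m) z = 0 := fun z hz =>
      image_eq_zero_of_notMem_tsupport hz
    have cdz : ∀ j z, z ∉ tsupport (cx (η m)) → dz j (cx (η m)) z = 0 := by
      intro j z hz
      have h' : z ∉ tsupport (fderiv ℝ (cx (η m))) := fun h' => hz (tsupport_fderiv_subset ℝ h')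
      simp [Pool.Agent.DK.dz, image_eq_zero_of_notMem_tsupport h']
    have cdb : ∀ j z, z ∉ tsupport (cx (η m)) → dbar j (cx (η m)) z = 0 := by
      intro j z hz
      have h' : z ∉ tsupport (fderiv ℝ (cx (η m))) := fun h' => hz (tsupport_fderiv_subset ℝ h')
      simp [Pool.Agent.DK.dbar, image_eq_zero_of_notMem_tsupport h']
    have mp : ∀ j, MemLp (fun z => cx (η m) z * f j z) 2 volume := fun j =>
      memLp_test_mul (lf j) hη
    have mq : ∀ j k, MemLp (fun z => f j z * dbar k (cx (η m)) z -
        f k z * dbar j (cx (η m)) z) 2 volume := by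
      intro j k
      have a1 := memLp_test_mul (lf j) (hη.dbar k)
      have a2 := memLp_test_mul (lf k) (hη.dbar j)
      refine (a1.sub a2).ae_eq (Eventually.of_forall fun z => ?_)
      simp only [Pi.sub_apply]
      ring
    have md : MemLp (fun z => cx (η m) z * d z + ∑ j, f j z * dz j (cx (η m)) z) 2 volume := by
      have a1 : MemLp (fun z => ∑ j, (dz j (cx w1) z * cx (η m) z) * f j z) 2 volume :=
        memLp_finset_sum _ fun j _ => memLp_test_mul (lf j) (test1 j _ hη)
      have a2 := memLp_test_mul lh (test2 _ hη)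
      have a3 : MemLp (fun z => ∑ j, (dz j (cx (η m)) z) * f j z) 2 volume :=
        memLp_finset_sum _ fun j _ => memLp_test_mul (lf j) (hη.dz j)
      refine ((a1.sub a2).add a3).ae_eq (Eventually.of_forall fun z => ?_)
      simp only [Pi.sub_apply, Pi.add_apply, hd, mul_sub, Finset.mul_sum]
      congr 1
      · congr 1
        · exact Finset.sum_congr rfl fun j _ => by ring
        · ring
      · exact Finset.sum_congr rfl fun j _ => by ring
    have hcurv : Curv D t Φ ψ := hW.lev
    have key := heps n D Φ ψ t (tsupport (cx (η m))) (fun j z => cx (η m) z * f j z)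
      (fun j k z => f j z * dbar k (cx (η m)) z - f k z * dbar j (cx (η m)) z)
      (fun z => cx (η m) z * d z + ∑ j, f j z * dz j (cx (η m)) z) hD hW.smΦ hW.smψ hcurv
      hη.cpt hη.sub mp mq md
      (fun j z hz => by simp [cη z hz]) (fun j k z hz => by simp [cdb _ z hz])
      (fun z hz => by simp [cη z hz, cdz _ z hz]) l1 l2
    -- rewrite the left side
    have zeroD : ∀ z, z ∉ D → z ∉ tsupport (cx (η m)) := fun z hz h' => hz (hη.sub h')
    have L : (∫ z, (∑ j, ‖cx (η m) z * f j z‖ ^ 2) * Real.exp (-(Φ z - ψ z))) =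
        ∫ z in D, (η m z) ^ 2 * (F z * Real.exp (-(Φ z - ψ z))) := by
      rw [← setIntegral_eq_integral_of_forall_compl_eq_zero (s := D)]
      · refine setIntegral_congr_fun hD.measurableSet fun z _ => ?_
        have : ∀ j, ‖cx (η m) z * f j z‖ ^ 2 = (η m z) ^ 2 * ‖f j z‖ ^ 2 := by
          intro j
          rw [norm_mul, mul_pow]
          simp [cx]
        simp only [this, ← Finset.mul_sum]
        rw [hF]
        ring
      · intro z hz
        simp [cη z (zeroD z hz)]
    have R1 : (∫ z, ‖(cx (η m) z * d z + ∑ j, f j z * dz j (cx (η m)) z) -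
        ∑ j, dz j (cx (fun y => Φ y - ψ y)) z * (cx (η m) z * f j z)‖ ^ 2 * Real.exp (-Φ z)) ≤
        ∫ z in D, (2 * (‖h z‖ ^ 2 * Real.exp (-(Φ z - 2 * ψ z))) +
          2 * (G m z * F z * Real.exp (-Φ z))) := by
      rw [← setIntegral_eq_integral_of_forall_compl_eq_zero (s := D)]
      · have pw : ∀ z ∈ D, ‖(cx (η m) z * d z + ∑ j, f j z * dz j (cx (η m)) z) -
            ∑ j, dz j (cx (fun y => Φ y - ψ y)) z * (cx (η m) z * f j z)‖ ^ 2 *
              Real.exp (-Φ z) ≤ 2 * (‖h z‖ ^ 2 * Real.exp (-(Φ z - 2 * ψ z))) +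
              2 * (G m z * F z * Real.exp (-Φ z)) := by
          intro z hz
          have e : (cx (η m) z * d z + ∑ j, f j z * dz j (cx (η m)) z) -
              ∑ j, dz j (cx (fun y => Φ y - ψ y)) z * (cx (η m) z * f j z) =
              (∑ j, f j z * dz j (cx (η m)) z) - cx (η m) z * (h z * (Real.exp (ψ z) : ℂ)) := by
            have e0 : ∑ j, dz j (cx (fun y => Φ y - ψ y)) z * (cx (η m) z * f j z) =
                cx (η m) z * ∑ j, f j z * dz j (cx w1) z := by
              rw [Finset.mul_sum]
              exact Finset.sum_congr rfl fun j _ => by ring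
            rw [e0, hd]
            ring
          rw [e]
          have hη0 := (hW.rng m z).1
          have hη1 := (hW.rng m z).2
          have c1 : ‖∑ j, f j z * dz j (cx (η m)) z‖ ^ 2 ≤ F z * G m z := by
            have a1 : ‖∑ j, f j z * dz j (cx (η m)) z‖ ≤
                ∑ j, ‖f j z‖ * ‖dz j (cx (η m)) z‖ :=
              (norm_sum_le _ _).trans (le_of_eq (Finset.sum_congr rfl fun j _ => norm_mul _ _))
            calc ‖∑ j, f j z * dz j (cx (η m)) z‖ ^ 2 ≤
                  (∑ j, ‖f j z‖ * ‖dz j (cx (η m)) z‖) ^ 2 :=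
                  pow_le_pow_left₀ (norm_nonneg _) a1 2
              _ ≤ _ := Finset.sum_mul_sq_le_sq_mul_sq _ _ _
          have c2 : ‖cx (η m) z * (h z * (Real.exp (ψ z) : ℂ))‖ ^ 2 ≤
              ‖h z‖ ^ 2 * Real.exp (ψ z) ^ 2 := by
            rw [norm_mul, norm_mul, mul_pow, mul_pow]
            have a1 : ‖cx (η m) z‖ = η m z := by
              simp only [cx, Complex.norm_real, Real.norm_eq_abs]
              exact abs_of_nonneg hη0
            have a2 : ‖(Real.exp (ψ z) : ℂ)‖ = Real.exp (ψ z) := by
              rw [Complex.norm_real, Real.norm_eq_abs, abs_of_nonneg (Real.exp_pos _).le]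
            rw [a1, a2]
            have a3 : η m z ^ 2 ≤ 1 := pow_le_one₀ hη0 hη1
            have a4 : 0 ≤ ‖h z‖ ^ 2 * Real.exp (ψ z) ^ 2 := by positivity
            nlinarith
          have c3 : ∀ x y : ℂ, ‖x - y‖ ^ 2 ≤ 2 * ‖x‖ ^ 2 + 2 * ‖y‖ ^ 2 := by
            intro x y
            have a1 := norm_sub_le x y
            have a2 : ‖x - y‖ ^ 2 ≤ (‖x‖ + ‖y‖) ^ 2 :=
              pow_le_pow_left₀ (norm_nonneg _) a1 2
            nlinarith [sq_nonneg (‖x‖ - ‖y‖)]
          have c4 := c3 (∑ j, f j z * dz j (cx (η m)) z) (cx (η m) z * (h z * (Real.exp (ψ z) : ℂ)))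
          have c5 : Real.exp (-(Φ z - 2 * ψ z)) = Real.exp (ψ z) ^ 2 * Real.exp (-Φ z) := by
            rw [← Real.exp_nat_mul, ← Real.exp_add]
            congr 1
            push_cast
            ring
          have hE := (Real.exp_pos (-Φ z)).le
          rw [c5]
          have c6 : ‖∑ j, f j z * dz j (cx (η m)) z -
              cx (η m) z * (h z * (Real.exp (ψ z) : ℂ))‖ ^ 2 ≤
              2 * (F z * G m z) + 2 * (‖h z‖ ^ 2 * Real.exp (ψ z) ^ 2) := by linarith
          have c7 := mul_le_mul_of_nonneg_right c6 hE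
          nlinarith [c7]
        have hint : IntegrableOn (fun z => 2 * (‖h z‖ ^ 2 * Real.exp (-(Φ z - 2 * ψ z))) +
          2 * (G m z * F z * Real.exp (-Φ z))) D := (hhi.const_mul 2).add ((iG m).const_mul 2)
        have hmeas : AEStronglyMeasurable (fun z => ‖(cx (η m) z * d z +
            ∑ j, f j z * dz j (cx (η m)) z) -
            ∑ j, dz j (cx (fun y => Φ y - ψ y)) z * (cx (η m) z * f j z)‖ ^ 2 *
              Real.exp (-Φ z)) (volume.restrict D) := by
          refine ((md.1.restrict.sub (Finset.aestronglyMeasurable_fun_sum _ fun j _ =>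
            ((sdz j).continuousOn.aestronglyMeasurable hD.measurableSet).mul
              (mp j).1.restrict)).norm.pow 2).mul mΦ
        refine setIntegral_mono_on ?_ hint hD.measurableSet pw
        refine Integrable.mono' hint hmeas ?_
        filter_upwards [ae_restrict_mem hD.measurableSet] with z hz
        rw [Real.norm_eq_abs, abs_of_nonneg (by positivity)]
        exact pw z hz
      · intro z hz
        have := zeroD z hz
        simp [cη z this, cdz _ z this]
    have R2 : (∫ z, (∑ j, ∑ k, ‖f j z * dbar k (cx (η m)) z -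
        f k z * dbar j (cx (η m)) z‖ ^ 2) * Real.exp (-Φ z)) ≤
        ∫ z in D, 4 * (G m z * F z * Real.exp (-Φ z)) := by
      rw [← setIntegral_eq_integral_of_forall_compl_eq_zero (s := D)]
      · have pw : ∀ z ∈ D, (∑ j, ∑ k, ‖f j z * dbar k (cx (η m)) z -
            f k z * dbar j (cx (η m)) z‖ ^ 2) * Real.exp (-Φ z) ≤
            4 * (G m z * F z * Real.exp (-Φ z)) := by
          intro z hz
          have c3 : ∀ x y : ℂ, ‖x - y‖ ^ 2 ≤ 2 * ‖x‖ ^ 2 + 2 * ‖y‖ ^ 2 := by
            intro x y
            have a1 := norm_sub_le x y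
            have a2 : ‖x - y‖ ^ 2 ≤ (‖x‖ + ‖y‖) ^ 2 :=
              pow_le_pow_left₀ (norm_nonneg _) a1 2
            nlinarith [sq_nonneg (‖x‖ - ‖y‖)]
          have c4 : ∑ j, ∑ k, ‖f j z * dbar k (cx (η m)) z -
              f k z * dbar j (cx (η m)) z‖ ^ 2 ≤ ∑ j, ∑ k, (2 * (‖f j z‖ ^ 2 *
                ‖dz k (cx (η m)) z‖ ^ 2) + 2 * (‖f k z‖ ^ 2 * ‖dz j (cx (η m)) z‖ ^ 2)) := by
            refine Finset.sum_le_sum fun j _ => Finset.sum_le_sum fun k _ => ?_
            refine (c3 _ _).trans (le_of_eq ?_)
            rw [norm_mul, norm_mul, norm_dbar_cx, norm_dbar_cx, mul_pow, mul_pow]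
          have c5 : ∑ j, ∑ k, (2 * (‖f j z‖ ^ 2 *
                ‖dz k (cx (η m)) z‖ ^ 2) + 2 * (‖f k z‖ ^ 2 * ‖dz j (cx (η m)) z‖ ^ 2)) =
              4 * (G m z * F z) := by
            have b1 : ∑ j, ∑ k, 2 * (‖f j z‖ ^ 2 * ‖dz k (cx (η m)) z‖ ^ 2) =
                2 * (F z * G m z) := by
              rw [hF, hG]
              dsimp only
              rw [Finset.sum_mul_sum, Finset.mul_sum]
              exact Finset.sum_congr rfl fun j _ => (Finset.mul_sum _ _ _).symm
            have b2 : ∑ j, ∑ k, 2 * (‖f k z‖ ^ 2 * ‖dz j (cx (η m)) z‖ ^ 2) =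
                2 * (F z * G m z) := by
              rw [Finset.sum_comm]
              exact b1
            simp only [Finset.sum_add_distrib]
            rw [b1, b2]
            ring
          have hE := (Real.exp_pos (-Φ z)).le
          have c6 := mul_le_mul_of_nonneg_right (c4.trans (le_of_eq c5)) hE
          linarith
        have hint : IntegrableOn (fun z => 4 * (G m z * F z * Real.exp (-Φ z))) D :=
          (iG m).const_mul 4
        have hmeas : AEStronglyMeasurable (fun z => (∑ j, ∑ k, ‖f j z * dbar k (cx (η m)) z -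
            f k z * dbar j (cx (η m)) z‖ ^ 2) * Real.exp (-Φ z)) (volume.restrict D) := by
          refine (Finset.aestronglyMeasurable_fun_sum _ fun j _ =>
            Finset.aestronglyMeasurable_fun_sum _ fun k _ =>
              ((mq j k).1.restrict.norm.pow 2)).mul mΦ
        refine setIntegral_mono_on ?_ hint hD.measurableSet pw
        refine Integrable.mono' hint hmeas ?_
        filter_upwards [ae_restrict_mem hD.measurableSet] with z hz
        rw [Real.norm_eq_abs, abs_of_nonneg (by positivity)]
        exact pw z hz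
      · intro z hz
        have := zeroD z hz
        simp [cdb _ z this]
    rw [L] at key
    rw [integral_add (hhi.const_mul 2) ((iG m).const_mul 2), integral_const_mul,
      integral_const_mul] at R1
    rw [integral_const_mul] at R2
    linarith
  -- passage to the limit
  have lim1 : Tendsto (fun m => ∫ z in D, (η m z) ^ 2 * (F z * Real.exp (-(Φ z - ψ z)))) atTop
      (𝓝 (∫ z in D, F z * Real.exp (-(Φ z - ψ z)))) := by
    refine tendsto_integral_of_dominated_convergence _ (fun m => ?_) iF (fun m => ?_) ?_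
    · have a1 : AEStronglyMeasurable (η m) (volume.restrict D) := by
        have : η m = fun z => (cx (η m) z).re := by
          funext z
          simp [cx]
        rw [this]
        exact (Complex.continuous_re.comp (hW.eta m).continuous).aestronglyMeasurable
      exact (a1.pow 2).mul iF.aestronglyMeasurable
    · filter_upwards with z
      have h0 := (hW.rng m z).1
      have h1 := (hW.rng m z).2
      have hF0 : 0 ≤ F z := Finset.sum_nonneg fun j _ => by positivity
      rw [Real.norm_eq_abs, abs_of_nonneg (by positivity)]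
      have a3 : η m z ^ 2 ≤ 1 := pow_le_one₀ h0 h1
      have a4 : 0 ≤ F z * Real.exp (-(Φ z - ψ z)) := by positivity
      nlinarith
    · filter_upwards [ae_restrict_mem hD.measurableSet] with z hz
      obtain ⟨N, hN⟩ := hW.exh z hz
      refine tendsto_const_nhds.congr' ?_
      filter_upwards [eventually_ge_atTop N] with m hm
      rw [(hN m hm).self_of_nhds]
      ring
  have lim2 : Tendsto (fun m => ∫ z in D, G m z * F z * Real.exp (-Φ z)) atTop (𝓝 0) := by
    have : (0 : ℝ) = ∫ z in D, (0 : ℝ) := by simp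
    rw [this]
    refine tendsto_integral_of_dominated_convergence _
      (fun m => (iG m).aestronglyMeasurable) iF (fun m => ?_) ?_
    · filter_upwards [ae_restrict_mem hD.measurableSet] with z hz
      have hG0 : 0 ≤ G m z := Finset.sum_nonneg fun j _ => by positivity
      have hF0 : 0 ≤ F z := Finset.sum_nonneg fun j _ => by positivity
      rw [Real.norm_eq_abs, abs_of_nonneg (by positivity)]
      exact dom m z hz
    · filter_upwards [ae_restrict_mem hD.measurableSet] with z hz
      obtain ⟨N, hN⟩ := hW.exh z hz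
      refine tendsto_const_nhds.congr' ?_
      filter_upwards [eventually_ge_atTop N] with m hm
      have h1 : cx (η m) =ᶠ[𝓝 z] fun _ => (1 : ℂ) := by
        filter_upwards [hN m hm] with y hy
        simp [cx, hy]
      have h2 : ∀ k, dz k (cx (η m)) z = 0 := fun k => by
        rw [dz_congr h1, dz_const]
      simp [hG, h2]
  have lim3 := lim1.const_mul t
  have lim4 := (lim2.const_mul 6).const_add
    (4 * (∫ z in D, ‖h z‖ ^ 2 * Real.exp (-(Φ z - 2 * ψ z))))
  have fin := le_of_tendsto_of_tendsto' lim3 lim4 main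
  simpa [hF] using fin

end Pool.Agent.DK.H69
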