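import Pool.Agent.Helper14_DK.Stmts

/-!
# Module STEP: one step of the iteration
-/

set_option autoImplicit false

namespace Pool.Agent.DK.H69

open MeasureTheory Complex Set Metric Filter
open scoped ContDiff Topology

lemma nsq_nonneg' {n : ℕ} (z : E n) : 0 ≤ nsq z := Finset.sum_nonneg fun _ _ => by positivity

lemma continuous_nsq {n : ℕ} : Continuous (nsq : E n → ℝ) :=
  continuous_finset_sum _ fun j _ => ((continuous_apply j).norm).pow 2

lemma norm_le_sqrt_nsq {n : ℕ} (z : E n) : ‖z‖ ≤ Real.sqrt (nsq z) := by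
  refine (pi_norm_le_iff_of_nonneg (Real.sqrt_nonneg _)).2 fun j => ?_
  refine Real.le_sqrt_of_sq_le ?_
  exact Finset.single_le_sum (f := fun j => ‖z j‖ ^ 2) (fun i _ => by positivity)
    (Finset.mem_univ j)

/-- sums with few nonzero terms -/
lemma sum_overlap {N : ℕ} (a : Fin N → ℂ) (S : Finset (Fin N)) (C : ℝ)
    (ha : ∀ i, i ∉ S → a i = 0) (hS : (S.card : ℝ) ≤ C) :
    ‖∑ i, a i‖ ^ 2 ≤ C * ∑ i, ‖a i‖ ^ 2 := by
  have e1 : ∑ i, a i = ∑ i ∈ S, a i :=
    (Finset.sum_subset (Finset.subset_univ S) fun i _ hi => ha i hi).symm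
  rw [e1]
  have h1 : ‖∑ i ∈ S, a i‖ ^ 2 ≤ (∑ i ∈ S, ‖a i‖) ^ 2 :=
    pow_le_pow_left₀ (norm_nonneg _) (norm_sum_le _ _) 2
  have h2 : (∑ i ∈ S, ‖a i‖) ^ 2 ≤ (S.card : ℝ) * ∑ i ∈ S, ‖a i‖ ^ 2 :=
    sq_sum_le_card_mul_sum_sq
  have h3 : ∑ i ∈ S, ‖a i‖ ^ 2 ≤ ∑ i, ‖a i‖ ^ 2 :=
    Finset.sum_le_sum_of_subset_of_nonneg (Finset.subset_univ S) fun _ _ _ => by positivity
  have h4 : 0 ≤ ∑ i ∈ S, ‖a i‖ ^ 2 := Finset.sum_nonneg fun _ _ => by positivity
  have hC : 0 ≤ C := le_trans (by positivity) hS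
  calc ‖∑ i ∈ S, a i‖ ^ 2 ≤ (S.card : ℝ) * ∑ i ∈ S, ‖a i‖ ^ 2 := h1.trans h2
    _ ≤ C * ∑ i ∈ S, ‖a i‖ ^ 2 := mul_le_mul_of_nonneg_right hS h4
    _ ≤ _ := mul_le_mul_of_nonneg_left h3 hC

/-- weighted squares are integrable -/
lemma integrable_wsq {n : ℕ} {t : ℝ} (ht : 0 ≤ t) {f : E n → ℂ} (hf : MemLp f 2 volume) :
    Integrable (fun z => ‖f z‖ ^ 2 * Real.exp (-(t * nsq z))) := by
  have h1 : Integrable (fun z => ‖f z‖ ^ 2) := (memLp_two_iff_integrable_sq_norm hf.1).1 hf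
  refine h1.mono' (h1.aestronglyMeasurable.mul ?_) (Eventually.of_forall fun z => ?_)
  · exact (Real.continuous_exp.comp (continuous_const.mul continuous_nsq).neg).aestronglyMeasurable
  · rw [Real.norm_eq_abs, abs_of_nonneg (by positivity)]
    have : Real.exp (-(t * nsq z)) ≤ 1 := by
      rw [Real.exp_le_one_iff]
      have := mul_nonneg ht (nsq_nonneg' z)
      linarith
    have h2 : 0 ≤ ‖f z‖ ^ 2 := by positivity
    nlinarith

/-- Module STEP. -/
theorem step (hH : HStmt) (hP : PieceStmt) (hU : PouStmt) (hG : GlueStmt) : StepStmt := by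
  intro n hn ρ κ₀ hN
  obtain ⟨Λ, h₀, κ₁, hΛ, hh₀, hκ₁, hκ₁₀, piece⟩ := hP n hn ρ κ₀ hN
  obtain ⟨C, hC1, pou⟩ := hU n hn
  have hC0 : 0 < C := lt_of_lt_of_le one_pos hC1
  have hn0 : (0 : ℝ) < n := by exact_mod_cast hn
  -- constants
  set K0 : ℝ := Real.sqrt (4 * n * C ^ 4 * Real.exp 1) with hK0
  have hK0pos : 0 < K0 := Real.sqrt_pos.2 (by positivity)
  have hK0sq : K0 ^ 2 = 4 * n * C ^ 4 * Real.exp 1 := Real.sq_sqrt (by positivity)
  refine ⟨Λ * K0 ^ 2, 4 * C ^ 2, max 1 (K0 ^ 2 / h₀ ^ 2), κ₁, by positivity, by positivity,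
    le_max_left _ _, hκ₁, hκ₁₀, ?_⟩
  intro κ t hκ hκκ₁ htt α hα hcl
  have ht1 : 1 ≤ t := (le_max_left _ _).trans htt
  have ht0 : 0 < t := lt_of_lt_of_le one_pos ht1
  set h : ℝ := K0 / Real.sqrt t with hh
  have hsq : 0 < Real.sqrt t := Real.sqrt_pos.2 ht0
  have hhpos : 0 < h := by positivity
  have hh2 : h ^ 2 = K0 ^ 2 / t := by
    rw [hh, div_pow, Real.sq_sqrt ht0.le]
  have hhle : h ≤ h₀ := by
    have h1 : K0 ^ 2 / h₀ ^ 2 ≤ t := (le_max_right _ _).trans htt
    have h2 : h ^ 2 ≤ h₀ ^ 2 := by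
      rw [hh2, div_le_iff₀ ht0]
      rw [div_le_iff₀ (by positivity)] at h1
      linarith
    exact (pow_le_pow_iff_left₀ hhpos.le hh₀.le (by norm_num)).1 h2
  set κ' : ℝ := κ * Real.exp (-(Λ * K0 ^ 2 / t)) with hκ'
  have hκ'eq : κ' = κ * Real.exp (-(Λ * h ^ 2)) := by
    rw [hκ', hh2]
    congr 2
    ring
  have hκ'le : κ' ≤ κ := by
    rw [hκ'eq]
    have : Real.exp (-(Λ * h ^ 2)) ≤ 1 := by
      rw [Real.exp_le_one_iff]
      have : 0 ≤ Λ * h ^ 2 := by positivity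
      linarith
    nlinarith
  -- boundedness
  have hρc : Continuous ρ := hN.smooth.continuous
  obtain ⟨R, hR⟩ : ∃ R : ℝ, ∀ z, ρ z < κ₀ → ‖z‖ ≤ R := by
    obtain ⟨R, hR⟩ := hN.cpt.isBounded.exists_norm_le
    refine ⟨R, fun z hz => hR z (subset_closure ?_)⟩
    simp only [Function.mem_support, ne_eq]
    have := hN.lt_one
    intro h0
    linarith
  obtain ⟨N, p, χ, c1, c2, c3, c4, c5, c6, c7⟩ := pou h hhpos R
  -- the pieces
  set D : Set (E n) := {z | ρ z < κ'} with hD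
  set Di : Fin N → Set (E n) := fun i => {z | nsq (z - p i) < h ^ 2 ∧ phi ρ κ Λ (p i) z < 0}
    with hDi
  set Ki : Fin N → Set (E n) := fun i => {z | nsq (z - p i) ≤ h ^ 2 / 4 ∧ ρ z ≤ κ'} with hKi
  have hDo : IsOpen D := isOpen_lt hρc continuous_const
  have hex : ∀ i, ∃ s, Exh (Di i) s := fun i => piece (p i) h κ hhpos hhle hκ hκκ₁
  have hDio : ∀ i, IsOpen (Di i) := fun i => by
    obtain ⟨s, hs⟩ := hex i
    exact hs.op
  have hDisub : ∀ i, Di i ⊆ {z | ρ z < κ} := by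
    rintro i z ⟨hz1, hz2⟩
    unfold phi at hz2
    have : Real.exp (-(Λ * nsq (z - p i))) ≤ 1 := by
      rw [Real.exp_le_one_iff]
      have := mul_nonneg hΛ.le (nsq_nonneg' (z - p i))
      linarith
    show ρ z < κ
    nlinarith
  have hnc : ∀ i, Continuous fun z : E n => nsq (z - p i) := fun i =>
    continuous_nsq.comp (continuous_id.sub continuous_const)
  have hKic : ∀ i, IsCompact (Ki i) := by
    intro i
    refine Metric.isCompact_of_isClosed_isBounded ?_ ?_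
    · exact (isClosed_le (hnc i) continuous_const).inter (isClosed_le hρc continuous_const)
    · refine (isBounded_iff_forall_norm_le).2 ⟨‖p i‖ + Real.sqrt (h ^ 2 / 4), ?_⟩
      rintro z ⟨hz1, -⟩
      have e1 : ‖z‖ ≤ ‖p i‖ + ‖z - p i‖ := by
        have := norm_add_le (p i) (z - p i)
        simpa using this
      have e2 := (norm_le_sqrt_nsq (z - p i)).trans (Real.sqrt_le_sqrt hz1)
      linarith
  have hKiD : ∀ i, Ki i ⊆ Di i := by
    rintro i z ⟨hz1, hz2⟩
    refine ⟨by nlinarith [sq_pos_of_pos hhpos], ?_⟩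
    unfold phi
    have : κ * Real.exp (-(Λ * h ^ 2)) < κ * Real.exp (-(Λ * nsq (z - p i))) := by
      refine mul_lt_mul_of_pos_left (Real.exp_lt_exp.2 ?_) hκ
      have : nsq (z - p i) < h ^ 2 := by nlinarith [sq_pos_of_pos hhpos]
      have := mul_lt_mul_of_pos_left this hΛ
      linarith
    rw [hκ'eq] at hz2
    linarith
  -- local solutions
  have hsol : ∀ i, ∃ u : E n → ℂ, MemLp u 2 volume ∧ (∀ z ∉ Ki i, u z = 0) ∧
      WDb (interior (Ki i)) u α ∧
      ∫ z, ‖u z‖ ^ 2 * Real.exp (-(t * nsq z)) ≤ (4 / t) * N2 (Di i) t α := by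
    intro i
    obtain ⟨s, hs⟩ := hex i
    exact hH n (Di i) s hs t ht0 (Ki i) (hKic i) (hKiD i) α hα
      (fun j k ψ hψ => hcl j k ψ (hψ.mono (hDisub i)))
  choose u hu1 hu2 hu3 hu4 using hsol
  -- gluing
  have hχc : ∀ i, HasCompactSupport (χ i) := by
    intro i
    refine IsCompact.of_isClosed_subset (s := {z | nsq (z - p i) ≤ h ^ 2 / 8}) ?_
      (isClosed_tsupport _) (c5 i)
    refine Metric.isCompact_of_isClosed_isBounded (isClosed_le (hnc i) continuous_const) ?_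
    refine (isBounded_iff_forall_norm_le).2 ⟨‖p i‖ + Real.sqrt (h ^ 2 / 8), ?_⟩
    intro z hz1
    have e1 : ‖z‖ ≤ ‖p i‖ + ‖z - p i‖ := by
      have := norm_add_le (p i) (z - p i)
      simpa using this
    have e2 := (norm_le_sqrt_nsq (z - p i)).trans (Real.sqrt_le_sqrt hz1)
    linarith
  have hWi : ∀ i, tsupport (χ i) ∩ D ⊆ interior (Ki i) := by
    rintro i z ⟨hz1, hz2⟩
    refine mem_interior.2 ⟨{y | nsq (y - p i) < h ^ 2 / 4} ∩ D, ?_, ?_, ?_⟩
    · rintro y ⟨hy1, hy2⟩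
      exact ⟨le_of_lt hy1, le_of_lt hy2⟩
    · exact (isOpen_lt (hnc i) continuous_const).inter hDo
    · refine ⟨?_, hz2⟩
      have := c5 i hz1
      simp only [mem_setOf_eq] at this ⊢
      nlinarith [sq_pos_of_pos hhpos]
  have hsum1 : ∀ z ∈ D, ∑ i, χ i z = 1 := by
    intro z hz
    refine c4 z (hR z ?_)
    have : ρ z < κ' := hz
    linarith
  obtain ⟨g1, g2⟩ := hG n D N (fun i => interior (Ki i)) χ u α hDo c1 hχc hWi hsum1 hu1 hα hu3
    (fun j k ψ hψ => hcl j k ψ (hψ.mono (fun z (hz : ρ z < κ') => lt_of_lt_of_le hz hκ'le)))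
  -- measurability and integrability
  have hcχ : ∀ i, ContDiff ℝ ∞ (cx (χ i)) := fun i => contDiff_cx (c1 i)
  have mχu : ∀ i, MemLp (fun z => (χ i z : ℂ) * u i z) 2 volume := by
    intro i
    refine (hu1 i).of_le_mul (c := 1) (((hcχ i).continuous.aestronglyMeasurable).mul (hu1 i).1)
      (Eventually.of_forall fun z => ?_)
    rw [norm_mul, Complex.norm_real, Real.norm_eq_abs, abs_of_nonneg (c2 i z)]
    exact mul_le_mul_of_nonneg_right (c3 i z) (norm_nonneg _)
  have mdu : ∀ i j, MemLp (fun z => u i z * dbar j (cx (χ i)) z) 2 volume := by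
    intro i j
    refine (hu1 i).of_le_mul (c := C / h) ((hu1 i).1.mul
      ((contDiff_dbar (hcχ i)).continuous.aestronglyMeasurable)) (Eventually.of_forall fun z => ?_)
    rw [norm_mul, mul_comm]
    exact mul_le_mul_of_nonneg_right (c6 i j z) (norm_nonneg _)
  have hα'0 : ∀ j, MemLp (fun z => ∑ i, u i z * dbar j (cx (χ i)) z) 2 volume := fun j =>
    memLp_finset_sum _ fun i _ => mdu i j
  have hu0 : MemLp (fun z => ∑ i, (χ i z : ℂ) * u i z) 2 volume :=
    memLp_finset_sum _ fun i _ => mχu i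
  have hα' : ∀ j, MemLp (fun z => - ∑ i, u i z * dbar j (cx (χ i)) z) 2 volume := fun j =>
    (hα'0 j).neg
  -- the total of the squares
  set G : E n → ℝ := fun z => (∑ j, ‖α j z‖ ^ 2) * Real.exp (-(t * nsq z)) with hGdef
  have iG : Integrable G := by
    have : G = fun z => ∑ j, ‖α j z‖ ^ 2 * Real.exp (-(t * nsq z)) := by
      funext z
      exact Finset.sum_mul _ _ _
    rw [this]
    exact integrable_finset_sum _ fun j _ => integrable_wsq ht0.le (hα j)
  have hG0 : ∀ z, 0 ≤ G z := fun z => by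
    rw [hGdef]
    positivity
  have iui : ∀ i, Integrable (fun z => ‖u i z‖ ^ 2 * Real.exp (-(t * nsq z))) := fun i =>
    integrable_wsq ht0.le (hu1 i)
  have hDκm : MeasurableSet {z : E n | ρ z < κ} :=
    (isOpen_lt hρc continuous_const).measurableSet
  have tot : ∑ i, N2 (Di i) t α ≤ C * N2 {z | ρ z < κ} t α := by
    unfold N2
    have e1 : ∀ i, ∫ z in Di i, G z = ∫ z, (Di i).indicator G z := fun i =>
      (integral_indicator (hDio i).measurableSet).symm
    have e2 : ∫ z in {z | ρ z < κ}, G z = ∫ z, {z | ρ z < κ}.indicator G z :=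
      (integral_indicator hDκm).symm
    have e3 : ∑ i, ∫ z in Di i, G z = ∫ z, ∑ i, (Di i).indicator G z := by
      rw [integral_finset_sum _ fun i _ => iG.indicator (hDio i).measurableSet]
      exact Finset.sum_congr rfl fun i _ => e1 i
    show ∑ i, ∫ z in Di i, G z ≤ C * ∫ z in {z | ρ z < κ}, G z
    rw [e3, e2, ← integral_const_mul]
    refine integral_mono (integrable_finset_sum _ fun i _ =>
      iG.indicator (hDio i).measurableSet) ((iG.indicator hDκm).const_mul C) fun z => ?_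
    by_cases hz : ρ z < κ
    · have e4 : {z | ρ z < κ}.indicator G z = G z := indicator_of_mem (by exact hz) _
      rw [e4]
      have e5 : ∀ i, (Di i).indicator G z ≤ if nsq (z - p i) < h ^ 2 then G z else 0 := by
        intro i
        by_cases hzi : z ∈ Di i
        · rw [indicator_of_mem hzi, if_pos hzi.1]
        · rw [indicator_of_notMem hzi]
          split_ifs
          · exact hG0 z
          · exact le_rfl
      refine (Finset.sum_le_sum fun i _ => e5 i).trans ?_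
      rw [← Finset.sum_filter, Finset.sum_const, nsmul_eq_mul]
      exact mul_le_mul_of_nonneg_right (c7 z) (hG0 z)
    · have e4 : {z | ρ z < κ}.indicator G z = 0 := indicator_of_notMem (by exact hz) _
      rw [e4, mul_zero]
      refine le_of_eq (Finset.sum_eq_zero fun i _ => ?_)
      exact indicator_of_notMem (fun hzi => hz (hDisub i hzi)) _
  have totu : ∑ i, ∫ z, ‖u i z‖ ^ 2 * Real.exp (-(t * nsq z)) ≤
      (4 / t) * (C * N2 {z | ρ z < κ} t α) := by
    calc ∑ i, ∫ z, ‖u i z‖ ^ 2 * Real.exp (-(t * nsq z)) ≤ ∑ i, (4 / t) * N2 (Di i) t α :=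
          Finset.sum_le_sum fun i _ => hu4 i
      _ = (4 / t) * ∑ i, N2 (Di i) t α := (Finset.mul_sum _ _ _).symm
      _ ≤ _ := mul_le_mul_of_nonneg_left tot (by positivity)
  have hN0 : 0 ≤ N2 {z | ρ z < κ} t α := integral_nonneg fun z => hG0 z
  have itot : Integrable (fun z => ∑ i, ‖u i z‖ ^ 2 * Real.exp (-(t * nsq z))) :=
    integrable_finset_sum _ fun i _ => iui i
  have itot0 : ∀ z, 0 ≤ ∑ i, ‖u i z‖ ^ 2 * Real.exp (-(t * nsq z)) := fun z =>
    Finset.sum_nonneg fun i _ => by positivity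
  have hover : ∀ (z : E n) (a : Fin N → ℂ), (∀ i, u i z = 0 → a i = 0) →
      ‖∑ i, a i‖ ^ 2 ≤ C * ∑ i, ‖a i‖ ^ 2 := by
    intro z a ha
    refine sum_overlap a (Finset.univ.filter fun i => nsq (z - p i) < h ^ 2) C (fun i hi => ?_)
      (c7 z)
    refine ha i (hu2 i z fun hzK => hi ?_)
    simp only [Finset.mem_filter, Finset.mem_univ, true_and]
    exact (hKiD i hzK).1
  refine ⟨fun z => ∑ i, (χ i z : ℂ) * u i z, fun j z => - ∑ i, u i z * dbar j (cx (χ i)) z,
    hu0, hα', ?_, g2, ?_, ?_⟩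
  · intro j ψ hψ
    have := g1 j ψ hψ
    rw [this]
    congr 1
    refine integral_congr_ae (Eventually.of_forall fun z => ?_)
    simp only
    ring
  · -- the estimate for `u`
    unfold N2s
    have b1 : ∀ z, ‖∑ i, (χ i z : ℂ) * u i z‖ ^ 2 * Real.exp (-(t * nsq z)) ≤
        C * ∑ i, ‖u i z‖ ^ 2 * Real.exp (-(t * nsq z)) := by
      intro z
      have a1 := hover z (fun i => (χ i z : ℂ) * u i z) (fun i hi => by rw [hi, mul_zero])
      have a2 : ∑ i, ‖(χ i z : ℂ) * u i z‖ ^ 2 ≤ ∑ i, ‖u i z‖ ^ 2 := by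
        refine Finset.sum_le_sum fun i _ => ?_
        rw [norm_mul, Complex.norm_real, Real.norm_eq_abs, abs_of_nonneg (c2 i z), mul_pow]
        have : χ i z ^ 2 ≤ 1 := pow_le_one₀ (c2 i z) (c3 i z)
        have h3 : 0 ≤ ‖u i z‖ ^ 2 := by positivity
        nlinarith
      rw [← Finset.sum_mul, ← mul_assoc]
      refine mul_le_mul_of_nonneg_right (a1.trans ?_) (Real.exp_pos _).le
      exact mul_le_mul_of_nonneg_left a2 hC0.le
    calc ∫ z in D, ‖∑ i, (χ i z : ℂ) * u i z‖ ^ 2 * Real.exp (-(t * nsq z)) ≤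
          ∫ z, ‖∑ i, (χ i z : ℂ) * u i z‖ ^ 2 * Real.exp (-(t * nsq z)) :=
          setIntegral_le_integral (integrable_wsq ht0.le hu0)
            (Eventually.of_forall fun z => by positivity)
      _ ≤ ∫ z, C * ∑ i, ‖u i z‖ ^ 2 * Real.exp (-(t * nsq z)) :=
          integral_mono (integrable_wsq ht0.le hu0) (itot.const_mul C) b1
      _ = C * ∑ i, ∫ z, ‖u i z‖ ^ 2 * Real.exp (-(t * nsq z)) := by
          rw [integral_const_mul, integral_finset_sum _ fun i _ => iui i]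
      _ ≤ C * ((4 / t) * (C * N2 {z | ρ z < κ} t α)) :=
          mul_le_mul_of_nonneg_left totu hC0.le
      _ ≤ 4 * C ^ 2 * N2 {z | ρ z < κ} t α := by
          have a1 : 4 / t ≤ 4 := by
            rw [div_le_iff₀ ht0]
            linarith
          have a2 : 0 ≤ C ^ 2 * N2 {z | ρ z < κ} t α := by positivity
          nlinarith
  · -- the estimate for `α'`
    have iα' : Integrable (fun z => (∑ j, ‖- ∑ i, u i z * dbar j (cx (χ i)) z‖ ^ 2) *
        Real.exp (-(t * nsq z))) := by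
      have : (fun z => (∑ j, ‖- ∑ i, u i z * dbar j (cx (χ i)) z‖ ^ 2) *
        Real.exp (-(t * nsq z))) = fun z => ∑ j, ‖- ∑ i, u i z * dbar j (cx (χ i)) z‖ ^ 2 *
        Real.exp (-(t * nsq z)) := by
        funext z
        rw [Finset.sum_mul]
      rw [this]
      exact integrable_finset_sum _ fun j _ => integrable_wsq ht0.le (hα' j)
    have b1 : ∀ z, (∑ j, ‖- ∑ i, u i z * dbar j (cx (χ i)) z‖ ^ 2) * Real.exp (-(t * nsq z)) ≤
        (n * C ^ 3 / h ^ 2) * ∑ i, ‖u i z‖ ^ 2 * Real.exp (-(t * nsq z)) := by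
      intro z
      have a1 : ∀ j, ‖- ∑ i, u i z * dbar j (cx (χ i)) z‖ ^ 2 ≤
          C * ((C / h) ^ 2 * ∑ i, ‖u i z‖ ^ 2) := by
        intro j
        rw [norm_neg]
        refine (hover z (fun i => u i z * dbar j (cx (χ i)) z)
          (fun i hi => by rw [hi, zero_mul])).trans ?_
        refine mul_le_mul_of_nonneg_left ?_ hC0.le
        rw [Finset.mul_sum]
        refine Finset.sum_le_sum fun i _ => ?_
        rw [norm_mul, mul_pow, mul_comm]
        refine mul_le_mul_of_nonneg_right ?_ (by positivity)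
        exact pow_le_pow_left₀ (norm_nonneg _) (c6 i j z) 2
      rw [← Finset.sum_mul, ← mul_assoc]
      refine mul_le_mul_of_nonneg_right ?_ (Real.exp_pos _).le
      refine (Finset.sum_le_sum fun j _ => a1 j).trans (le_of_eq ?_)
      rw [Finset.sum_const, Finset.card_univ, Fintype.card_fin, nsmul_eq_mul]
      field_simp
    unfold N2
    calc ∫ z in D, (∑ j, ‖- ∑ i, u i z * dbar j (cx (χ i)) z‖ ^ 2) * Real.exp (-(t * nsq z)) ≤
          ∫ z, (∑ j, ‖- ∑ i, u i z * dbar j (cx (χ i)) z‖ ^ 2) * Real.exp (-(t * nsq z)) :=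
          setIntegral_le_integral iα' (Eventually.of_forall fun z => by positivity)
      _ ≤ ∫ z, (n * C ^ 3 / h ^ 2) * ∑ i, ‖u i z‖ ^ 2 * Real.exp (-(t * nsq z)) :=
          integral_mono iα' (itot.const_mul _) b1
      _ = (n * C ^ 3 / h ^ 2) * ∑ i, ∫ z, ‖u i z‖ ^ 2 * Real.exp (-(t * nsq z)) := by
          rw [integral_const_mul, integral_finset_sum _ fun i _ => iui i]
      _ ≤ (n * C ^ 3 / h ^ 2) * ((4 / t) * (C * N2 {z | ρ z < κ} t α)) :=
          mul_le_mul_of_nonneg_left totu (by positivity)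
      _ = Real.exp (-1) * N2 {z | ρ z < κ} t α := by
          rw [hh2, hK0sq, Real.exp_neg]
          have he := (Real.exp_pos 1).ne'
          field_simp

end Pool.Agent.DK.H69
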